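import Pool.Agent.Q106.UN.Pair
import Pool.Agent.Q120.GM.Exists

/-!
# MP_39a890_nt: the exact error of the Bateman-Horn formula, uniformly in all windows, in the sieved models

The sieved model of level `Q`: a random set `A` which contains the integers `n` coprime to `Q` independently with
probability `(Q / φ(Q)) / log n` (at most `1`), and no others (`IsModel μ (level Q) A`; `Q = 1` is Cramér's model).

For a finite set `F` of polynomials (`PSys F`: not empty, all of them of degree at least one with positive leading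
coefficient) let `count A F x` be the number of the `m < x` such that all values `f(m)`, `f ∈ F`, are in `A`, and
`predicted Q F x` the product of the singular series of level `Q` and of the sum over `m < x` of the products of the
`1 / log f(m)`. For a window `[x, x + H)` the path is
`err A Q F x H t = (number of counted m in [x, x + t H) - predicted number) / √(2 · predicted number for [x, x + H) · lam x H)`,
`lam x H = log (x / H) + log log x`, `0 ≤ t ≤ 1`. Almost surely, for all systems `F` and for all finite families of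
systems without common sets of values at large arguments, the vectors of the paths of ALL windows with `x^δ ≤ H ≤ x` are
near Strassen's ball, uniformly in `H`. This contains the law of the iterated logarithm (`H = x`) and the laws of the
increments (`H = x^θ`), and it is exact: for every `0 < θ ≤ 1` the windows with `H = ⌊x^θ⌋` approximate all elements of the
ball.

The system `pair = {X, 2 X - 1}` of the problem has a positive singular series at all levels, twice the product of the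
`1 - 1 / (p - 1)^2`, `2 < p ≤ z`, if `Q` is the product of the primes up to `z`.
-/

set_option autoImplicit false

namespace Pool.Agent.Results.MP_39a890_nt.AllWindowsLaw

open Finset MeasureTheory Filter Polynomial
open scoped Topology
open Pool.Agent.Q120.GM (IsModel level prodMeasure trueSet)
open Pool.Agent.Q106.ST (series PSys Apart count predicted rho)
open Pool.Agent.Q106.UN (err lam pair)
open Pool.Agent.Q106.FL (Energy Near)

/-- The law of all windows `[x, x + H)` with `x^δ ≤ H ≤ x`. -/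
structure Law (Q : ℕ) (A : Set ℕ) : Prop where
  /-- The asymptotic formula and the upper bound of the error, uniformly in all windows. -/
  uniform : ∀ F : Finset ℤ[X], PSys F → 0 < series Q F → ∀ δ : ℝ, 0 < δ → ∀ ε > 0, ∀ᶠ x : ℕ in atTop,
    ∀ H : ℕ, (x : ℝ) ^ δ ≤ H → H ≤ x →
      0 < predicted Q F (x + H) - predicted Q F x ∧
      |(count A F (x + H) - count A F x) - (predicted Q F (x + H) - predicted Q F x)| ≤
        (1 + ε) * √(2 * (predicted Q F (x + H) - predicted Q F x) * lam x H) ∧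
      |(count A F (x + H) - count A F x) - (predicted Q F (x + H) - predicted Q F x)| ≤
        ε * (predicted Q F (x + H) - predicted Q F x)
  /-- All vectors of paths are near Strassen's ball, uniformly in all windows. -/
  near : ∀ (r : ℕ) (F : Fin r → Finset ℤ[X]), (∀ i, PSys (F i)) → (∀ i, 0 < series Q (F i)) →
    (∀ i j, i ≠ j → Apart (F i) (F j)) → ∀ δ : ℝ, 0 < δ → ∀ ε > 0, ∀ᶠ x : ℕ in atTop,
      ∀ H : ℕ, (x : ℝ) ^ δ ≤ H → H ≤ x → ∃ φ e, e ≤ 1 ∧ Energy φ e ∧ Near ε (fun i t => err A Q (F i) x H t) φ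
  /-- The problem, in the model. -/
  pairs : ∀ᶠ N : ℕ in atTop, ∃ q : ℕ, N ≤ 2 * q - 1 ∧ 2 * q - 1 ≤ 2 * N ∧ q ∈ A ∧ 2 * q - 1 ∈ A

/-- The law is exact for the windows `[x, x + ⌊x^θ⌋)`. -/
structure Exact (Q : ℕ) (θ : ℝ) (A : Set ℕ) : Prop where
  /-- The limit points of the errors. -/
  order : ∀ F : Finset ℤ[X], PSys F → 0 < series Q F → ∀ c : ℝ,
    MapClusterPt c atTop (fun x : ℕ => err A Q F x ⌊(x : ℝ) ^ θ⌋₊ 1) ↔ |c| ≤ 1
  /-- All elements of Strassen's ball are approximated. -/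
  dense : ∀ (r : ℕ) (F : Fin r → Finset ℤ[X]), (∀ i, PSys (F i)) → (∀ i, 0 < series Q (F i)) →
    (∀ i j, i ≠ j → Apart (F i) (F j)) → ∀ φ e, e ≤ 1 → Energy φ e → ∀ ε > 0,
      ∃ᶠ x : ℕ in atTop, Near ε (fun i t => err A Q (F i) x ⌊(x : ℝ) ^ θ⌋₊ t) φ

/-- **The uniform law of all windows for all systems of polynomials.** -/
theorem result :
    (∀ Q : ℕ, IsModel (prodMeasure (level Q)) (level Q) (trueSet (ι := ℕ))) ∧
    (PSys pair ∧ (∀ Q : ℕ, 1 ≤ Q → 0 < series Q pair) ∧ ∀ z : ℕ, 2 ≤ z → series (primorial z) pair =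
      2 * ∏ p ∈ (range (z + 1)).filter (fun p => p.Prime ∧ 2 < p), (1 - 1 / ((p : ℝ) - 1) ^ 2)) ∧
    ∀ (Ω : Type) (_ : MeasurableSpace Ω) (μ : Measure Ω) (_ : IsProbabilityMeasure μ) (A : Ω → Set ℕ) (Q : ℕ),
      1 ≤ Q → IsModel μ (level Q) A →
        (∀ᵐ ω ∂μ, Law Q (A ω)) ∧ ∀ θ : ℝ, 0 < θ → θ ≤ 1 → ∀ᵐ ω ∂μ, Exact Q θ (A ω) := by
  refine ⟨fun Q => Pool.Agent.Q120.GM.isModel (level Q) (Pool.Agent.Q120.GM.level_nonneg Q) (Pool.Agent.Q120.GM.level_le_one Q),
    ⟨Pool.Agent.Q106.UN.pair_psys, fun Q hQ => Pool.Agent.Q106.UN.pair_pos hQ,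
      fun z hz => Pool.Agent.Q106.UN.series_pair hz⟩, ?_⟩
  intro Ω _ μ _ A Q hQ hA
  haveI := Pool.Agent.Q106.GMM.countable_poly
  constructor
  · have h1 : ∀ᵐ ω ∂μ, ∀ F : Finset ℤ[X], PSys F → 0 < series Q F → ∀ δ : ℝ, 0 < δ → ∀ ε > 0, ∀ᶠ x : ℕ in atTop,
        ∀ H : ℕ, (x : ℝ) ^ δ ≤ H → H ≤ x →
          0 < predicted Q F (x + H) - predicted Q F x ∧
          |(count (A ω) F (x + H) - count (A ω) F x) - (predicted Q F (x + H) - predicted Q F x)| ≤
            (1 + ε) * √(2 * (predicted Q F (x + H) - predicted Q F x) * lam x H) ∧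
          |(count (A ω) F (x + H) - count (A ω) F x) - (predicted Q F (x + H) - predicted Q F x)| ≤
            ε * (predicted Q F (x + H) - predicted Q F x) := by
      rw [ae_all_iff]
      intro F
      by_cases h : PSys F ∧ 0 < series Q F
      · filter_upwards [Pool.Agent.Q106.UN.one_uniform hQ hA h.1 h.2] with ω hω _ _
        exact hω
      · filter_upwards with ω h2 h3
        exact absurd ⟨h2, h3⟩ h
    have h2 : ∀ᵐ ω ∂μ, ∀ (r : ℕ) (F : Fin r → Finset ℤ[X]), (∀ i, PSys (F i)) → (∀ i, 0 < series Q (F i)) →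
        (∀ i j, i ≠ j → Apart (F i) (F j)) → ∀ δ : ℝ, 0 < δ → ∀ ε > 0, ∀ᶠ x : ℕ in atTop,
          ∀ H : ℕ, (x : ℝ) ^ δ ≤ H → H ≤ x →
            ∃ φ e, e ≤ 1 ∧ Energy φ e ∧ Near ε (fun i t => err (A ω) Q (F i) x H t) φ := by
      rw [ae_all_iff]
      intro r
      rw [ae_all_iff]
      intro F
      by_cases h : (∀ i, PSys (F i)) ∧ (∀ i, 0 < series Q (F i)) ∧ ∀ i j, i ≠ j → Apart (F i) (F j)
      · filter_upwards [Pool.Agent.Q106.UN.poly_uniform hQ hA h.1 h.2.1 h.2.2] with ω hω _ _ _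
        exact hω
      · filter_upwards with ω h3 h4 h5
        exact absurd ⟨h3, h4, h5⟩ h
    filter_upwards [h1, h2, Pool.Agent.Q106.UN.pair_exists hQ hA] with ω hω1 hω2 hω3
    exact ⟨hω1, hω2, hω3⟩
  · intro θ hθ0 hθ1
    have h1 : ∀ᵐ ω ∂μ, ∀ F : Finset ℤ[X], PSys F → 0 < series Q F → ∀ c : ℝ,
        MapClusterPt c atTop (fun x : ℕ => err (A ω) Q F x ⌊(x : ℝ) ^ θ⌋₊ 1) ↔ |c| ≤ 1 := by
      rw [ae_all_iff]
      intro F
      by_cases h : PSys F ∧ 0 < series Q F
      · filter_upwards [Pool.Agent.Q106.UN.one_order hQ hA h.1 h.2 hθ0 hθ1] with ω hω _ _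
        exact hω
      · filter_upwards with ω h2 h3
        exact absurd ⟨h2, h3⟩ h
    have h2 : ∀ᵐ ω ∂μ, ∀ (r : ℕ) (F : Fin r → Finset ℤ[X]), (∀ i, PSys (F i)) → (∀ i, 0 < series Q (F i)) →
        (∀ i j, i ≠ j → Apart (F i) (F j)) → ∀ φ e, e ≤ 1 → Energy φ e → ∀ ε > 0,
          ∃ᶠ x : ℕ in atTop, Near ε (fun i t => err (A ω) Q (F i) x ⌊(x : ℝ) ^ θ⌋₊ t) φ := by
      rw [ae_all_iff]
      intro r
      rw [ae_all_iff]
      intro F
      by_cases h : (∀ i, PSys (F i)) ∧ (∀ i, 0 < series Q (F i)) ∧ ∀ i j, i ≠ j → Apart (F i) (F j)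
      · filter_upwards [Pool.Agent.Q106.UN.poly_dense hQ hA h.1 h.2.1 h.2.2 hθ0 hθ1] with ω hω _ _ _
        exact hω
      · filter_upwards with ω h3 h4 h5
        exact absurd ⟨h3, h4, h5⟩ h
    filter_upwards [h1, h2] with ω hω1 hω2
    exact ⟨hω1, hω2⟩

end Pool.Agent.Results.MP_39a890_nt.AllWindowsLaw
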