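import Pool.Agent.Q117.LF.Main5

/-!
MP_39a890_nt (primes `p ∈ [N, 2N]` with `(p+1)/2` prime; `p = 2 q - 1`): in every window `[N, 2N]`, every admissible vector of gaps up to a constant times
`(log N) ^ 2` between consecutive `q` with `q` and `2 q - 1` almost prime, with a prime and a product of two primes at any two places, in the right order of magnitude.
-/

set_option autoImplicit false

namespace Pool.Agent.Results.MP_39a890_nt.EveryGapInEveryWindow

/-- all prime factors of `m` are `> z` (so `0` is not rough) -/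
def Rough (z : ℝ) (m : ℤ) : Prop := ∀ p : ℕ, p.Prime → (p : ℤ) ∣ m → z < p

/-- at most two prime factors (with multiplicity), all `> z` -/
def AtMostTwo (z : ℝ) (m : ℤ) : Prop := m.natAbs.primeFactorsList.length ≤ 2 ∧ Rough z m

/-- `q` and `2 q - 1` are almost primes -/
def Pair (z : ℝ) (q : ℤ) : Prop := Rough z q ∧ Rough z (2 * q - 1)

/-- the value at the place `(j, ε)`: `q + D j` for `ε = false`, `2 (q + D j) - 1` for `ε = true` -/
def val {J : ℕ} (q : ℕ) (D : Fin (J + 1) → ℕ) (w : Fin (J + 1) × Bool) : ℤ := if w.2 then 2 * ((q : ℤ) + D w.1) - 1 else (q : ℤ) + D w.1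

/-- the number of the `q` modulo `p` for which `p` divides one of the values -/
noncomputable def omega {J : ℕ} (D : Fin (J + 1) → ℕ) (p : ℕ) : ℕ := {q : ℕ | q < p ∧ ∃ w, (p : ℤ) ∣ val q D w}.ncard

/-- the `q` with `N ≤ 2 q - 1 ≤ 2 N` such that the `k` with `|k - q| ≤ L` and `k`, `2 k - 1` almost prime are exactly the `q + D j`, the value at the place `w₁` is
prime and the value at the place `w₂` has at most two prime factors, all `> N ^ (1/10)` -/
def Good {J : ℕ} (N : ℕ) (z L : ℝ) (D : Fin (J + 1) → ℕ) (w₁ w₂ : Fin (J + 1) × Bool) : Set ℕ :=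
  {q : ℕ | N ≤ 2 * q - 1 ∧ 2 * q - 1 ≤ 2 * N ∧ (∀ k : ℤ, |((k - q : ℤ) : ℝ)| ≤ L → (Pair z k ↔ ∃ j, k = q + D j)) ∧ (val q D w₁).toNat.Prime ∧
    AtMostTwo ((N : ℝ) ^ (1 / 10 : ℝ)) (val q D w₂)}

/-- the slopes -/
def A : Fin 2 → ℕ := ![1, 2]

/-- the intercepts -/
def b : Fin 2 → ℤ := ![0, -1]

/-- the index -/
def ix (e : Bool) : Fin 2 := if e then 1 else 0

theorem val_eq {J : ℕ} (q : ℕ) (D : Fin (J + 1) → ℕ) (j : Fin (J + 1)) (e : Bool) :
    ((A (ix e) : ℤ) * (q + D j) + b (ix e)) = val q D (j, e) := by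
  cases e
  · simp [A, b, ix, val]
  · simp [A, b, ix, val]; ring

theorem val_eq' {J : ℕ} (q : ℕ) (D : Fin (J + 1) → ℕ) (j : Fin (J + 1)) (x : Fin 2) :
    ∃ e, ((A x : ℤ) * (q + D j) + b x) = val q D (j, e) := by
  fin_cases x
  · exact ⟨false, val_eq q D j false⟩
  · exact ⟨true, val_eq q D j true⟩

theorem om_eq {J : ℕ} (D : Fin (J + 1) → ℕ) (p : ℕ) : Pool.Agent.Q117.LF.oD A b D p = omega D p := by
  unfold Pool.Agent.Q117.LF.oD omega
  rw [← Set.ncard_coe_finset]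
  congr 1
  ext q
  simp only [Finset.coe_filter, Finset.mem_range, Set.mem_setOf_eq]
  constructor
  · rintro ⟨h1, j, x, h2⟩
    obtain ⟨e, he⟩ := val_eq' q D j x
    exact ⟨h1, (j, e), he ▸ h2⟩
  · rintro ⟨h1, ⟨j, e⟩, h2⟩
    exact ⟨h1, j, ix e, by rw [val_eq]; exact h2⟩

theorem omega_le {J : ℕ} (D : Fin (J + 1) → ℕ) (p : ℕ) : omega D p ≤ p := by
  unfold omega
  have h : {q : ℕ | q < p ∧ ∃ w, (p : ℤ) ∣ val q D w} ⊆ (Finset.range p : Set ℕ) := by
    rintro q ⟨h1, -⟩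
    simpa using h1
  calc _ ≤ (Finset.range p : Set ℕ).ncard := Set.ncard_le_ncard h (Finset.finite_toSet _)
    _ = p := by rw [Set.ncard_coe_finset, Finset.card_range]

theorem result : ∀ (J : ℕ) (w₁ w₂ : Fin (J + 1) × Bool), w₁ ≠ w₂ → ∃ t : ℕ, 1 ≤ t ∧ ∃ c : ℝ, 0 < c ∧ ∃ ν : ℝ, 0 < ν ∧ ∃ N0 : ℕ, ∀ N : ℕ, N0 ≤ N →
    ∀ D : Fin (J + 1) → ℕ, StrictMono D → D 0 = 0 → (∀ j, (D j : ℝ) ≤ ν * Real.log N ^ 2) →
      (∀ p : ℕ, p.Prime → ∃ r : ℕ, ∀ w, ¬ (p : ℤ) ∣ val r D w) →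
      c * (N * ∏ p ∈ (Finset.Icc 1 N).filter Nat.Prime, (1 - (omega D p : ℝ) / p)) ≤
        ((Good N (((N : ℝ) / 2) ^ (1 / (t : ℝ))) (ν * Real.log N ^ 2) D w₁ w₂).ncard : ℝ) := by
  classical
  intro J w₁ w₂ hw
  obtain ⟨j₁, e₁⟩ := w₁
  obtain ⟨j₂, e₂⟩ := w₂
  have hixi : Function.Injective ix := by decide
  obtain ⟨t, ht, c, hc, ν, hν, X0, h⟩ := Pool.Agent.Q117.LF.nsvC 2 J A b (by norm_num) (by decide) (by decide)
    (fun p hp => ⟨1, fun x => by
      have h1 : ¬ (p : ℤ) ∣ 1 := by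
        intro h
        have : p ∣ 1 := by exact_mod_cast h
        exact hp.one_lt.ne' (Nat.dvd_one.mp this)
      fin_cases x
      · simpa [A, b] using h1
      · simpa [A, b] using h1⟩) (j₁, ix e₁) (j₂, ix e₂) (by
        intro hcon
        rw [Prod.mk.injEq] at hcon
        exact hw (by rw [hcon.1, hixi hcon.2]))
  have hev : ∀ᶠ N : ℕ in Filter.atTop, X0 ≤ (N : ℝ) / 2 ∧ (N : ℝ) ^ (1 / 10 : ℝ) ≤ ((N : ℝ) / 2) ^ (1 / 9 : ℝ) ∧ 4 ≤ (N : ℝ) := by
    have hcast := tendsto_natCast_atTop_atTop (R := ℝ)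
    have hdiv : Filter.Tendsto (fun N : ℕ => (N : ℝ) / 2) Filter.atTop Filter.atTop := hcast.atTop_div_const (by norm_num)
    have h3 : Filter.Tendsto (fun X : ℝ => X ^ ((1 / 9 : ℝ) - 1 / 10)) Filter.atTop Filter.atTop := tendsto_rpow_atTop (by norm_num)
    filter_upwards [hdiv.eventually_ge_atTop X0, hcast.eventually_ge_atTop 4, (h3.comp hcast).eventually_ge_atTop ((2 : ℝ) ^ (1 / 9 : ℝ))]
      with N g1 g2 g3
    refine ⟨g1, ?_, g2⟩
    have gN : (0 : ℝ) < N := by linarith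
    rw [Real.div_rpow gN.le (by norm_num), le_div_iff₀ (by positivity)]
    calc (N : ℝ) ^ (1 / 10 : ℝ) * 2 ^ (1 / 9 : ℝ) ≤ (N : ℝ) ^ (1 / 10 : ℝ) * (N : ℝ) ^ ((1 / 9 : ℝ) - 1 / 10) := by
          gcongr
          exact g3
      _ = (N : ℝ) ^ (1 / 9 : ℝ) := by rw [← Real.rpow_add gN]; congr 1; ring
  obtain ⟨N0, hN0⟩ := Filter.eventually_atTop.1 hev
  refine ⟨t, ht, c / 2, by positivity, ν / 4, by positivity, N0, fun N hN D hD hD0 hDν hadm => ?_⟩
  obtain ⟨g1, g2, g3⟩ := hN0 N hN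
  have hlog : Real.log N ≤ 2 * Real.log ((N : ℝ) / 2) := by
    have hN0' : (0 : ℝ) < N := by linarith
    have h1 : Real.log ((N : ℝ) / 2) = Real.log N - Real.log 2 := Real.log_div hN0'.ne' (by norm_num)
    have h2 : 2 * Real.log 2 ≤ Real.log N := by
      rw [← Real.log_rpow (by norm_num) 2]
      apply Real.log_le_log (by positivity)
      norm_num
      exact_mod_cast g3
    linarith
  have hlog0 : 0 ≤ Real.log (N : ℝ) := Real.log_nonneg (by linarith)
  have hν' : ν / 4 * Real.log N ^ 2 ≤ ν * Real.log ((N : ℝ) / 2) ^ 2 := by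
    have h1 : Real.log N ^ 2 ≤ (2 * Real.log ((N : ℝ) / 2)) ^ 2 := pow_le_pow_left₀ hlog0 hlog 2
    nlinarith
  have hmain := h ((N : ℝ) / 2) g1 D hD (fun j => (hDν j).trans hν')
    (fun j x i y hne hA hcon => by
      have hxy : x = y := by
        have hAi : Function.Injective A := by decide
        exact hAi hA
      subst hxy
      have hAx : (A x : ℤ) ≠ 0 := by fin_cases x <;> simp [A]
      have h1 : (A x : ℤ) * D j = A x * D i := by linarith
      have h2 : (D j : ℤ) = D i := mul_left_cancel₀ hAx h1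
      have h3 : D j = D i := by exact_mod_cast h2
      exact hne (by rw [hD.injective h3]))
    (fun p hp => by
      obtain ⟨r, hr⟩ := hadm p hp
      refine ⟨r, fun j x => ?_⟩
      obtain ⟨e, he⟩ := val_eq' r D j x
      rw [he]
      exact hr (j, e))
  have hprod : ∏ p ∈ (Finset.Icc 1 N).filter Nat.Prime, (1 - (omega D p : ℝ) / p) ≤
      ∏ p ∈ (Finset.Icc 1 ⌊(N : ℝ) / 2⌋₊).filter Nat.Prime, (1 - (Pool.Agent.Q117.LF.oD A b D p : ℝ) / p) := by
    simp only [om_eq]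
    have hfac : ∀ p : ℕ, p.Prime → 0 ≤ 1 - (omega D p : ℝ) / p ∧ 1 - (omega D p : ℝ) / p ≤ 1 := by
      intro p hp
      have hp0 : (0 : ℝ) < p := by exact_mod_cast hp.pos
      constructor
      · rw [sub_nonneg, div_le_one hp0]
        exact_mod_cast omega_le D p
      · have : 0 ≤ (omega D p : ℝ) / p := by positivity
        linarith
    have hsub : (Finset.Icc 1 ⌊(N : ℝ) / 2⌋₊).filter Nat.Prime ⊆ (Finset.Icc 1 N).filter Nat.Prime := by
      apply Finset.filter_subset_filter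
      apply Finset.Icc_subset_Icc_right
      apply Nat.floor_le_of_le
      linarith
    rw [← Finset.prod_sdiff hsub]
    have h1 : ∏ p ∈ (Finset.Icc 1 N).filter Nat.Prime \ (Finset.Icc 1 ⌊(N : ℝ) / 2⌋₊).filter Nat.Prime, (1 - (omega D p : ℝ) / p) ≤ 1 := by
      apply Finset.prod_le_one
      · intro p hp
        exact (hfac p (Finset.mem_filter.1 (Finset.mem_sdiff.1 hp).1).2).1
      · intro p hp
        exact (hfac p (Finset.mem_filter.1 (Finset.mem_sdiff.1 hp).1).2).2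
    have h2 : 0 ≤ ∏ p ∈ (Finset.Icc 1 ⌊(N : ℝ) / 2⌋₊).filter Nat.Prime, (1 - (omega D p : ℝ) / p) := by
      apply Finset.prod_nonneg
      intro p hp
      exact (hfac p (Finset.mem_filter.1 hp).2).1
    calc _ ≤ 1 * ∏ p ∈ (Finset.Icc 1 ⌊(N : ℝ) / 2⌋₊).filter Nat.Prime, (1 - (omega D p : ℝ) / p) := mul_le_mul_of_nonneg_right h1 h2
      _ = _ := one_mul _
  have h4 : c / 2 * (N * ∏ p ∈ (Finset.Icc 1 N).filter Nat.Prime, (1 - (omega D p : ℝ) / p)) ≤
      c * ((N : ℝ) / 2 * ∏ p ∈ (Finset.Icc 1 ⌊(N : ℝ) / 2⌋₊).filter Nat.Prime, (1 - (Pool.Agent.Q117.LF.oD A b D p : ℝ) / p)) := by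
    have h5 : c / 2 * (N * ∏ p ∈ (Finset.Icc 1 N).filter Nat.Prime, (1 - (omega D p : ℝ) / p)) =
        c * ((N : ℝ) / 2 * ∏ p ∈ (Finset.Icc 1 N).filter Nat.Prime, (1 - (omega D p : ℝ) / p)) := by ring
    rw [h5]
    apply mul_le_mul_of_nonneg_left _ hc.le
    exact mul_le_mul_of_nonneg_left hprod (by linarith)
  refine h4.trans (hmain.trans ?_)
  have hfin : (Good N (((N : ℝ) / 2) ^ (1 / (t : ℝ))) (ν / 4 * Real.log N ^ 2) D (j₁, e₁) (j₂, e₂)).Finite := by
    apply Set.Finite.subset (Set.finite_Iic (2 * N))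
    rintro n ⟨-, h2, -⟩
    simp only [Set.mem_Iic]
    omega
  rw [Nat.cast_le]
  apply Set.ncard_le_ncard _ hfin
  rintro n ⟨k1, k2, k3, k4, k5, k6⟩
  have hn1 : N < 2 * n := by
    have : (N : ℝ) < 2 * n := by linarith
    exact_mod_cast this
  have hn2 : n ≤ N := by
    have : (n : ℝ) ≤ N := by linarith
    exact_mod_cast this
  refine ⟨by omega, by omega, fun k hk => ⟨fun hP => ?_, ?_⟩, ?_, ?_⟩
  · obtain ⟨j, y, h1, h2⟩ := k6 k (hk.trans hν') (fun x => by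
      have hR : ∀ m : ℤ, Rough (((N : ℝ) / 2) ^ (1 / (t : ℝ))) m → Pool.Agent.Q117.LF.Ro (((N : ℝ) / 2) ^ (1 / (t : ℝ))) m := fun x hx => hx
      apply hR
      fin_cases x
      · simpa [A, b] using hP.1
      · have := hP.2
        simpa [A, b, sub_eq_add_neg] using this) 0
    have hy : y = 0 := by
      fin_cases y
      · rfl
      · simp [A] at h1
    subst hy
    exact ⟨j, by simpa [A, b] using h2⟩
  · rintro ⟨j, rfl⟩
    constructor
    · have h0 : Rough _ _ := k5 j 0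
      simpa [A, b] using h0
    · have h0 : Rough _ _ := k5 j 1
      simpa [A, b, sub_eq_add_neg] using h0
  · rw [← val_eq]; exact k3
  · refine ⟨?_, fun p hp hpd => ?_⟩
    · rw [← val_eq]; exact k4.1
    · rw [← val_eq] at hpd
      exact lt_of_le_of_lt g2 (k4.2 p hp hpd)

end Pool.Agent.Results.MP_39a890_nt.EveryGapInEveryWindow
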