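import Pool.Agent.Q117.LF.Cnt

/-!
MP_39a890_nt (primes `p ∈ [N, 2 N]` with `(p + 1) / 2` prime, `p = 2 q - 1`): in every window one member prime, the other one a prime or a product of
two large primes, and among ALL the numbers `m q - 1`, `m` up to the scale of Rankin, exactly the prescribed ones are free of small prime factors.
-/

set_option autoImplicit false

namespace Pool.Agent.Results.MP_39a890_nt.ExactMultipliers

/-- the scale of Rankin -/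
noncomputable def R (X : ℝ) : ℝ :=
  Real.log X * Real.log (Real.log X) * Real.log (Real.log (Real.log (Real.log X))) / (Real.log (Real.log (Real.log X))) ^ 2

/-- all prime factors of `m` are `> z` (so `0` is not rough) -/
def Rough (z : ℝ) (m : ℤ) : Prop := ∀ p : ℕ, p.Prime → (p : ℤ) ∣ m → z < p

/-- at most two prime factors (with multiplicity), all `> z` -/
def AtMostTwo (z : ℝ) (m : ℤ) : Prop := m.natAbs.primeFactorsList.length ≤ 2 ∧ Rough z m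

/-- no prime divides `n` or one of the `m n - 1`, `m ∈ M`, for every `n` -/
def NoFixedDivisor (M : Finset ℕ) : Prop :=
  ∀ p : ℕ, p.Prime → ∃ n : ℕ, ¬ p ∣ n ∧ ∀ m ∈ M, ¬ (p : ℤ) ∣ (m : ℤ) * n - 1

/-- the window of the question -/
def InWindow (N q : ℕ) : Prop := N ≤ 2 * q - 1 ∧ 2 * q - 1 ≤ 2 * N

/-- among all the `m q - 1`, `1 ≤ m ≤ D`, exactly those with `m ∈ M` have no small prime factor -/
def Multipliers (t : ℕ) (N : ℕ) (D : ℝ) (M : Finset ℕ) (q : ℕ) : Prop :=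
  (∀ m ∈ M, Rough ((N : ℝ) ^ (1 / (t : ℝ))) ((m : ℤ) * q - 1)) ∧
    ∀ m : ℕ, 1 ≤ m → (m : ℝ) ≤ D → m ∉ M → ¬ Rough (Real.log N) ((m : ℤ) * q - 1)

theorem result : ∀ k : ℕ, ∃ t : ℕ, 1 ≤ t ∧ ∃ c : ℝ, 0 < c ∧ ∃ N0 : ℕ, ∀ N : ℕ, N0 ≤ N → ∀ M : Finset ℕ,
    M.card ≤ k → 2 ∈ M → 0 ∉ M → (∀ m ∈ M, (m : ℝ) ≤ c * R N) → NoFixedDivisor M →
    (N : ℝ) ^ (98 / 100 : ℝ) ≤ ({q : ℕ | InWindow N q ∧ q.Prime ∧ AtMostTwo ((N : ℝ) ^ (1 / 9 : ℝ)) (2 * q - 1) ∧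
      Multipliers t N (c * R N) M q}.ncard : ℝ) ∧
    (N : ℝ) ^ (98 / 100 : ℝ) ≤ ({q : ℕ | InWindow N q ∧ (2 * q - 1).Prime ∧ AtMostTwo ((N : ℝ) ^ (1 / 9 : ℝ)) q ∧
      Multipliers t N (c * R N) M q}.ncard : ℝ) := by
  intro k
  obtain ⟨t, ht, c, hc, N0, h⟩ := Pool.Agent.Q117.LF.t2 Pool.Agent.Q117.LF.rkm Pool.Agent.Q117.LF.mulC k
  refine ⟨t, ht, c, hc, N0, fun N hN M h1 h2 h3 h4 h5 => ?_⟩
  obtain ⟨a, b⟩ := h N hN M h1 h2 h3 h4 h5
  have key : ∀ P : ℕ → Prop, {q : ℕ | 1 ≤ q ∧ q ≤ N ∧ (N ≤ 2 * q - 1 ∧ 2 * q - 1 ≤ 2 * N ∧ P q)} ⊆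
      {q : ℕ | InWindow N q ∧ P q} := fun P q hq => ⟨⟨hq.2.2.1, hq.2.2.2.1⟩, hq.2.2.2.2⟩
  have fin : ∀ P : ℕ → Prop, {q : ℕ | InWindow N q ∧ P q}.Finite := by
    intro P
    apply Set.Finite.subset (Set.finite_Iic (2 * N + 1))
    intro q hq
    have := hq.1.2
    simp only [Set.mem_Iic]
    omega
  constructor
  · refine (Pool.Agent.Q117.LF.cntI N _ _ a).trans ?_
    exact_mod_cast Set.ncard_le_ncard (key _) (fin _)
  · refine (Pool.Agent.Q117.LF.cntI N _ _ b).trans ?_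
    exact_mod_cast Set.ncard_le_ncard (key _) (fin _)

end Pool.Agent.Results.MP_39a890_nt.ExactMultipliers
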