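import Pool.Agent.Q250.NP.NatRow

/-!
# Primes `p ∈ [N, 2 N]` with `(p + 1) / 2` almost prime, and conversely: narrow progressions in every window
-/

set_option autoImplicit false

namespace Pool.Agent.Results.MP_39a890_nt.ProgressionsBothWays

open Finset Filter Polynomial
open Pool.Agent.Q250.NP
open Pool.Agent.Q253.Line (W NFD)

/-- the member of the pair `(q, 2 q - 1)` which is asked to be prime: `q` or `2 q - 1` -/
def primeMember (b : Bool) (q : ℕ) : ℕ := if b then q else 2 * q - 1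

/-- the other member -/
def otherMember (b : Bool) (q : ℕ) : ℕ := if b then 2 * q - 1 else q

/-- `⌈N / 2⌉` -/
def half (N : ℕ) : ℕ := (N + 1) / 2

open Classical in
/-- the `q` with `⌈N/2⌉ < q < 2 ⌈N/2⌉` (so `N ≤ 2 q - 1 ≤ 2 N`) with one member of `(q, 2 q - 1)` prime and all prime factors of
the other one larger than `⌈N/2⌉ ^ (1/t)` -/
noncomputable def Good (b : Bool) (t N : ℕ) : Finset ℕ :=
  (Ioo (half N) (2 * half N)).filter (fun q : ℕ => (primeMember b q).Prime ∧
    ∀ r : ℕ, r.Prime → r ∣ otherMember b q → (half N : ℝ) ^ (1 / (t : ℝ)) < r)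

theorem Good_eq (b : Bool) (t N : ℕ) : Good b t N = T (primeMember b) (fun _ : Fin 1 => otherMember b) t (half N) := by
  classical
  unfold Good T
  apply filter_congr
  intro q _
  constructor
  · rintro ⟨h1, h2⟩
    exact ⟨h1, fun _ => h2⟩
  · rintro ⟨h1, h2⟩
    exact ⟨h1, h2 0⟩

theorem rep_true {n : ℕ} (hn : 4 ≤ n) : Rep (m := 1) 1 2 n 1 0 (primeMember true) (fun _ => otherMember true)
    (fun _ => C 2 * X + C (-1)) := by
  constructor
  · rw [Fin.prod_univ_one]
    exact natDegree_linear_le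
  · intro p hp
    refine ⟨1, ?_⟩
    rw [Fin.prod_univ_one]
    simp only [eval_mul, eval_add, eval_C, eval_X]
    norm_num
    exact Int.natCast_dvd.not.2 (by simpa using hp.one_lt.ne')
  · intro y h1 h2
    simp only [primeMember, if_true]
    refine ⟨by simp, h1⟩
  · intro y h1 h2 i
    simp only [otherMember, if_true, eval_mul, eval_add, eval_C, eval_X]
    omega
  · intro y h1 h2 i
    simp only [otherMember, if_true]
    have : 4 * n ≤ n ^ 2 := by nlinarith
    refine ⟨by omega, by omega⟩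

theorem rep_false {n : ℕ} (hn : 4 ≤ n) : Rep (m := 1) 1 2 n 2 (-1) (primeMember false) (fun _ => otherMember false)
    (fun _ => X) := by
  constructor
  · rw [Fin.prod_univ_one]
    exact natDegree_X_le
  · intro p hp
    refine ⟨1, ?_⟩
    rw [Fin.prod_univ_one]
    simp only [eval_mul, eval_add, eval_C, eval_X]
    norm_num
    exact Int.natCast_dvd.not.2 (by simpa using hp.one_lt.ne')
  · intro y h1 h2
    simp only [primeMember, Bool.false_eq_true, if_false]
    refine ⟨by omega, by omega⟩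
  · intro y h1 h2 i
    simp only [otherMember, Bool.false_eq_true, if_false, eval_X]
    omega
  · intro y h1 h2 i
    simp only [otherMember, Bool.false_eq_true, if_false]
    have : 4 * n ≤ n ^ 2 := by nlinarith
    refine ⟨by omega, by omega⟩

theorem all_rep (b : Bool) {n : ℕ} (hn : 4 ≤ n) : ∃ G, Rep (m := 1) 1 2 n (if b then 1 else 2) (if b then 0 else -1)
    (primeMember b) (fun _ => otherMember b) G := by
  cases b
  · exact ⟨_, rep_false hn⟩
  · exact ⟨_, rep_true hn⟩

/-- **Narrow progressions in every window `[N, 2 N]`.** There are `t ≥ 1` and `c > 0` such that for both choices of the prime member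
of the pair `(q, 2 q - 1)`, i.e. for the primes `p = 2 q - 1 ∈ [N, 2 N]` with `(p + 1) / 2 = q` almost prime, and for the almost
primes `2 q - 1 ∈ [N, 2 N]` with `q` prime:

(1) for all large `N` there are at least `c N / log ^ 2 N` of them;

(2) for all `L` and `δ > 0` there is `D` such that for all large `N` every subset of relative density `δ` contains `L` terms of an
arithmetic progression with difference at most `log ^ D N`;

(3) for all `L` and `k` there is `D` such that for all large `N` and every colouring of the integers in `k` colours there are `s` with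
`1 ≤ s ≤ 2 t` and `L` terms `q` of a progression with difference at most `log ^ D N`, of one colour, with `N ≤ 2 q - 1 ≤ 2 N`, one
member of `(q, 2 q - 1)` (always the same) prime and the other one a product of exactly `s` primes, all larger than
`(N / 2) ^ (1/t)`. -/
theorem result : ∃ t : ℕ, 1 ≤ t ∧ ∃ c : ℝ, 0 < c ∧ ∀ b : Bool,
    (∀ N : ℕ, ∀ q ∈ Good b t N, N ≤ 2 * q - 1 ∧ 2 * q - 1 ≤ 2 * N) ∧
    (∃ N₀ : ℕ, ∀ N : ℕ, N₀ ≤ N → c * (N / Real.log N ^ 2) ≤ ((Good b t N).card : ℝ)) ∧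
    (∀ (L : ℕ) (δ : ℝ), 0 < δ → ∃ D N₀ : ℕ, ∀ N : ℕ, N₀ ≤ N → ∀ S ⊆ Good b t N, δ * ((Good b t N).card : ℝ) ≤ S.card →
      ∃ a d : ℕ, 1 ≤ d ∧ (d : ℝ) ≤ Real.log N ^ D ∧ ∀ j < L, a + j * d ∈ S) ∧
    (∀ (L k : ℕ), 1 ≤ k → ∃ D N₀ : ℕ, ∀ N : ℕ, N₀ ≤ N → ∀ col : ℕ → Fin k, ∃ (s : ℕ) (κ : Fin k) (a d : ℕ),
      1 ≤ s ∧ s ≤ 2 * t ∧ 1 ≤ d ∧ (d : ℝ) ≤ Real.log N ^ D ∧ ∀ j < L,
        N ≤ 2 * (a + j * d) - 1 ∧ 2 * (a + j * d) - 1 ≤ 2 * N ∧ col (a + j * d) = κ ∧ (primeMember b (a + j * d)).Prime ∧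
          (otherMember b (a + j * d)).primeFactorsList.length = s ∧
          ∀ r : ℕ, r.Prime → r ∣ otherMember b (a + j * d) → ((N : ℝ) / 2) ^ (1 / (t : ℝ)) < r) := by
  classical
  obtain ⟨t, ht, H⟩ := natRow 1 1 2
  obtain ⟨cT, hcT, ⟨N1, T1⟩, T2, T3⟩ := H 1 0 (by norm_num)
  obtain ⟨cF, hcF, ⟨N2, F1⟩, F2, F3⟩ := H 2 (-1) (by norm_num)
  have hwin : ∀ b : Bool, ∀ N : ℕ, ∀ q ∈ Good b t N, N ≤ 2 * q - 1 ∧ 2 * q - 1 ≤ 2 * N := by
    intro b N q hq
    unfold Good at hq
    rw [mem_filter, mem_Ioo] at hq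
    have := hq.1
    unfold half at this
    omega
  have hhalf : ∀ N : ℕ, (N : ℝ) / 2 ≤ (half N : ℝ) := by
    intro N
    have : N ≤ 2 * half N := by unfold half; omega
    have h : (N : ℝ) ≤ 2 * half N := by exact_mod_cast this
    linarith
  have hle : ∀ N : ℕ, 1 ≤ N → half N ≤ N := by
    intro N hN
    unfold half
    omega
  have hlog : ∀ (N D : ℕ) (d : ℝ), 8 ≤ N → d ≤ Real.log (half N) ^ D → d ≤ Real.log N ^ D := by
    intro N D d hN hd
    refine hd.trans ?_
    have h4 : 4 ≤ half N := by unfold half; omega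
    have h4r : (4 : ℝ) ≤ (half N : ℝ) := by exact_mod_cast h4
    apply pow_le_pow_left₀ (Real.log_nonneg (by linarith))
    apply Real.log_le_log (by linarith)
    exact_mod_cast hle N (by omega)
  have hcnt : ∀ (c : ℝ) (N : ℕ) (W0 : ℝ), 0 < c → 8 ≤ N → c / Real.log (half N) ^ 2 ≤ W0 →
      ∀ G : ℝ, c * (half N * W0) ≤ G → min c (c ^ 2) / 2 * (N / Real.log N ^ 2) ≤ G := by
    intro c N W0 hc hN hW G hG
    have h4 : 4 ≤ half N := by unfold half; omega
    have h4r : (4 : ℝ) ≤ (half N : ℝ) := by exact_mod_cast h4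
    have hl0 : 0 < Real.log (half N) := Real.log_pos (by linarith)
    have hl1 : Real.log (half N) ≤ Real.log N := Real.log_le_log (by linarith) (by exact_mod_cast hle N (by omega))
    have hlN : 0 < Real.log N := lt_of_lt_of_le hl0 hl1
    have hN0 : (0 : ℝ) < N := by exact_mod_cast (by omega : 0 < N)
    refine le_trans ?_ hG
    calc min c (c ^ 2) / 2 * (N / Real.log N ^ 2) ≤ c ^ 2 / 2 * (N / Real.log N ^ 2) := by
          apply mul_le_mul_of_nonneg_right _ (by positivity)
          have := min_le_right c (c ^ 2)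
          linarith
      _ = c * ((N : ℝ) / 2 * (c / Real.log N ^ 2)) := by ring
      _ ≤ c * (half N * (c / Real.log (half N) ^ 2)) := by
          apply mul_le_mul_of_nonneg_left _ hc.le
          apply mul_le_mul (hhalf N) _ (by positivity) (by positivity)
          apply div_le_div_of_nonneg_left hc.le (by positivity)
          exact pow_le_pow_left₀ hl0.le hl1 2
      _ ≤ _ := by
          apply mul_le_mul_of_nonneg_left _ hc.le
          exact mul_le_mul_of_nonneg_left hW (by positivity)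
  have hbig : ∀ N K : ℕ, 2 * K ≤ N → K ≤ half N := by
    intro N K h
    unfold half
    omega
  have hcol : ∀ b : Bool, ∀ N : ℕ, ∀ x : ℕ, x ∈ T (primeMember b) (fun _ : Fin 1 => otherMember b) t (half N) →
      (N ≤ 2 * x - 1 ∧ 2 * x - 1 ≤ 2 * N) ∧ (primeMember b x).Prime ∧
        ∀ r : ℕ, r.Prime → r ∣ otherMember b x → ((N : ℝ) / 2) ^ (1 / (t : ℝ)) < r := by
    intro b N x hx
    rw [← Good_eq] at hx
    have h1 := hwin b N x hx
    unfold Good at hx
    rw [mem_filter] at hx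
    refine ⟨h1, hx.2.1, fun r hr hd => lt_of_le_of_lt ?_ (hx.2.2 r hr hd)⟩
    exact Real.rpow_le_rpow (by positivity) (hhalf N) (by positivity)
  refine ⟨t, ht, min (min cT (cT ^ 2) / 2) (min cF (cF ^ 2) / 2), by positivity, ?_⟩
  intro b
  refine ⟨hwin b, ?_, ?_, ?_⟩
  · cases b
    · refine ⟨max (2 * N2) 8, fun N hN => ?_⟩
      have h8 : 8 ≤ N := (le_max_right _ _).trans hN
      obtain ⟨g1, g2⟩ := F1 (half N) (hbig N N2 ((le_max_left _ _).trans hN)) _ _ _ (rep_false (hbig N 4 (by omega)))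
      rw [Good_eq]
      refine le_trans ?_ (hcnt cF N _ hcF h8 g1 _ g2)
      exact mul_le_mul_of_nonneg_right (min_le_right _ _) (by positivity)
    · refine ⟨max (2 * N1) 8, fun N hN => ?_⟩
      have h8 : 8 ≤ N := (le_max_right _ _).trans hN
      obtain ⟨g1, g2⟩ := T1 (half N) (hbig N N1 ((le_max_left _ _).trans hN)) _ _ _ (rep_true (hbig N 4 (by omega)))
      rw [Good_eq]
      refine le_trans ?_ (hcnt cT N _ hcT h8 g1 _ g2)
      exact mul_le_mul_of_nonneg_right (min_le_left _ _) (by positivity)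
  · intro L δ hδ
    cases b
    · obtain ⟨D, N0, h⟩ := F2 L δ hδ
      refine ⟨D, max (2 * N0) 8, fun N hN S hS hSc => ?_⟩
      have h8 : 8 ≤ N := (le_max_right _ _).trans hN
      rw [Good_eq] at hS hSc
      obtain ⟨a, d, hd1, hd2, h3⟩ := h (half N) (hbig N N0 ((le_max_left _ _).trans hN)) _ _ _ (rep_false (hbig N 4 (by omega))) S hS hSc
      exact ⟨a, d, hd1, hlog N D d h8 hd2, h3⟩
    · obtain ⟨D, N0, h⟩ := T2 L δ hδ
      refine ⟨D, max (2 * N0) 8, fun N hN S hS hSc => ?_⟩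
      have h8 : 8 ≤ N := (le_max_right _ _).trans hN
      rw [Good_eq] at hS hSc
      obtain ⟨a, d, hd1, hd2, h3⟩ := h (half N) (hbig N N0 ((le_max_left _ _).trans hN)) _ _ _ (rep_true (hbig N 4 (by omega))) S hS hSc
      exact ⟨a, d, hd1, hlog N D d h8 hd2, h3⟩
  · intro L k hk
    cases b
    · obtain ⟨D, N0, h⟩ := F3 L k hk
      refine ⟨D, max (2 * N0) 8, fun N hN col => ?_⟩
      have h8 : 8 ≤ N := (le_max_right _ _).trans hN
      obtain ⟨s, κ, a, d, hs, hd1, hd2, h3⟩ := h (half N) (hbig N N0 ((le_max_left _ _).trans hN)) _ _ _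
        (rep_false (hbig N 4 (by omega))) col
      refine ⟨s 0, κ, a, d, (hs 0).1, by have := (hs 0).2; omega, hd1, hlog N D d h8 hd2, fun j hj => ?_⟩
      obtain ⟨h4, h5, h6⟩ := h3 j hj
      obtain ⟨g1, g2, g3⟩ := hcol false N _ h4
      exact ⟨g1.1, g1.2, h5, g2, h6 0, g3⟩
    · obtain ⟨D, N0, h⟩ := T3 L k hk
      refine ⟨D, max (2 * N0) 8, fun N hN col => ?_⟩
      have h8 : 8 ≤ N := (le_max_right _ _).trans hN
      obtain ⟨s, κ, a, d, hs, hd1, hd2, h3⟩ := h (half N) (hbig N N0 ((le_max_left _ _).trans hN)) _ _ _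
        (rep_true (hbig N 4 (by omega))) col
      refine ⟨s 0, κ, a, d, (hs 0).1, by have := (hs 0).2; omega, hd1, hlog N D d h8 hd2, fun j hj => ?_⟩
      obtain ⟨h4, h5, h6⟩ := h3 j hj
      obtain ⟨g1, g2, g3⟩ := hcol true N _ h4
      exact ⟨g1.1, g1.2, h5, g2, h6 0, g3⟩

end Pool.Agent.Results.MP_39a890_nt.ProgressionsBothWays
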